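import Pool.Agent.H23.QCF.Targets
import Pool.Agent.H32.QC.TargetsL

set_option autoImplicit false

open NumberField IsDedekindDomain Pool.Agent.H23.QCF

open Pool.Agent.H32.QC (Sol hil Iso FPl Pl ic hs sqAt HasseConic ProdFormula Prescribed)

namespace Pool.Agent.H97.QCF

variable {K : Type} [Field K] [NumberField K]

theorem red (v : FPl K) (a : K) (m : ℤ) (ha : v.valuation K a = WithZero.exp m) (hm : Even m) :
    ∃ u c : K, c ≠ 0 ∧ v.valuation K u = 1 ∧ a = u * c ^ 2 := by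
  obtain ⟨k, rfl⟩ := hm
  obtain ⟨π, hπ⟩ := v.valuation_exists_uniformizer K
  have hπ0 : π ≠ 0 := by
    rintro rfl
    rw [map_zero] at hπ
    exact WithZero.exp_ne_zero hπ.symm
  have hc : v.valuation K (π ^ (-k)) = WithZero.exp k := by
    rw [map_zpow₀, hπ, ← WithZero.exp_zsmul]
    congr 1
    simp
  have hc0 : π ^ (-k) ≠ 0 := zpow_ne_zero _ hπ0
  refine ⟨a / (π ^ (-k)) ^ 2, π ^ (-k), hc0, ?_, ?_⟩
  · rw [map_div₀, map_pow, hc, ha, sq, ← WithZero.exp_add, div_self WithZero.exp_ne_zero]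
  · rw [div_mul_cancel₀ _ (pow_ne_zero 2 hc0)]

theorem ne_of_val (v : FPl K) {a : K} {m : ℤ} (ha : v.valuation K a = WithZero.exp m) : a ≠ 0 := by
  rintro rfl
  rw [map_zero] at ha
  exact WithZero.exp_ne_zero ha.symm

theorem sq_ms (v : FPl K) (u c : K) : sqAt (.inl v) (u * c ^ 2 * u) :=
  ⟨ic v (u * c), by rw [← map_mul]; congr 1; ring⟩

theorem pf_UNE (h1 : Pool.Agent.H32.QC.T_ODD) (h2 : Pool.Agent.H32.QC.T_PSG) : T_UNE := by
  intro K _ _ v a b m n hv ha hb hm hn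
  have ha0 := ne_of_val v ha
  obtain ⟨u, c, hc, hu, hac⟩ := red v a m ha hm
  obtain ⟨w, d, hd, hw, hbd⟩ := red v b n hb hn
  have hu' : v.valuation K u = WithZero.exp 0 := by rw [hu]; exact WithZero.exp_zero.symm
  have hw' : v.valuation K w = WithZero.exp 0 := by rw [hw]; exact WithZero.exp_zero.symm
  have hu0 := ne_of_val v hu'
  have hw0 := ne_of_val v hw'
  have hb0 := ne_of_val v hb
  have e1 : hs (.inl v) a b = hs (.inl v) a w :=
    (h2 K (.inl v) a b ha0 hb0).2.2.2 w hw0 (by rw [hbd]; exact sq_ms v w d)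
  have e2 : hs (.inl v) a w = hs (.inl v) w a := (h2 K (.inl v) a w ha0 hw0).2.1
  have e3 : hs (.inl v) w a = hs (.inl v) w u :=
    (h2 K (.inl v) w a hw0 ha0).2.2.2 u hu0 (by rw [hac]; exact sq_ms v u c)
  rw [e1, e2, e3]
  exact ((h1 K v hv w hw).1 u 0 hu').1 (by decide)

theorem pf_UNR (h1 : Pool.Agent.H32.QC.T_ODD) (h2 : Pool.Agent.H32.QC.T_PSG) : T_UNR := by
  intro K _ _ v a t m n hv ha ht hm hn hns
  have ha0 := ne_of_val v ha
  have ht0 := ne_of_val v ht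
  obtain ⟨u, c, hc, hu, htc⟩ := red v t n ht hn
  have hu' : v.valuation K u = WithZero.exp 0 := by rw [hu]; exact WithZero.exp_zero.symm
  have hu0 := ne_of_val v hu'
  have e1 : hs (.inl v) a t = hs (.inl v) a u :=
    (h2 K (.inl v) a t ha0 ht0).2.2.2 u hu0 (by rw [htc]; exact sq_ms v u c)
  have e2 : hs (.inl v) a u = hs (.inl v) u a := (h2 K (.inl v) a u ha0 hu0).2.1
  rw [e1, e2]
  refine ((h1 K v hv u hu).1 a m ha).2 hm fun h => hns ?_
  obtain ⟨r, hr⟩ := h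
  refine ⟨r * ic v c, ?_⟩
  rw [htc, map_mul, map_pow, hr]
  ring

theorem pf_UUS (h1 : Pool.Agent.H32.QC.T_ODD) (h2 : Pool.Agent.H32.QC.T_PSG)
    (h3 : Pool.Agent.H32.QC.T_PBM) (h4 : Pool.Agent.H32.QC.T_PND) : T_UUS := by
  intro K _ _ v a b hv ha hb hna hnb
  by_contra hab
  have ha0 : a ≠ 0 := ne_of_val v (m := 0) (by rw [ha]; exact WithZero.exp_zero.symm)
  have hb0 : b ≠ 0 := ne_of_val v (m := 0) (by rw [hb]; exact WithZero.exp_zero.symm)
  obtain ⟨z, hz, hz1, hz2⟩ := h4 K (.inl v) a (a * b) ha0 (mul_ne_zero ha0 hb0) hna hab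
  have hvz : v.valuation K z = WithZero.exp (WithZero.log (v.valuation K z)) :=
    (WithZero.exp_log ((v.valuation K).ne_zero_iff.2 hz)).symm
  have hodd : Odd (WithZero.log (v.valuation K z)) := by
    rw [← Int.not_even_iff_odd]
    intro he
    have := ((h1 K v hv a ha).1 z _ hvz).1 he
    rw [hz1] at this
    norm_num at this
  have h5 := ((h1 K v hv b hb).1 z _ hvz).2 hodd hnb
  have h6 := h3 K (.inl v) z a b hz ha0 hb0
  rw [(h2 K (.inl v) z (a * b) hz (mul_ne_zero ha0 hb0)).2.1, (h2 K (.inl v) z a hz ha0).2.1,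
    (h2 K (.inl v) z b hz hb0).2.1, hz1, hz2, h5] at h6
  norm_num at h6

end Pool.Agent.H97.QCF
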